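import Mathlib

/-!
Definitions for the problem on mutual condensations of the function spaces `C_p(X)`.
-/

namespace Pool.Agent.MP_1f8704_gt

/-- `C_p(X)`: the linear subspace of continuous functions inside the product `X → ℝ`.
As a subtype of the product space it carries the topology of pointwise convergence. -/
abbrev Cp (X : Type*) [TopologicalSpace X] : Submodule ℝ (X → ℝ) :=
  continuousSubmodule X ℝ ℝ

/-- A space is analytic if it is a continuous image of the space of irrationals `ω^ω`. -/
def IsAnalyticSpace (X : Type*) [TopologicalSpace X] : Prop :=
  ∃ f : (ℕ → ℕ) → X, Continuous f ∧ Function.Surjective f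

end Pool.Agent.MP_1f8704_gt
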