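import Pool.Agent.MP_1f8704_gt.Defs

/-!
A continuous linear surjection `C_p(X) → C_p(Y)` carries analyticity from `X` to `Y`.
-/

open Set Topology Filter

namespace Pool.Agent.MP_1f8704_gt

variable {X Y : Type*} [TopologicalSpace X] [TopologicalSpace Y]

theorem Cp.cont (g : Cp X) : Continuous (g : X → ℝ) := g.2

/-- evaluation at a point as a linear functional on `C_p(X)` -/
def ev (x : X) : Cp X →ₗ[ℝ] ℝ where
  toFun g := (g : X → ℝ) x
  map_add' _ _ := rfl
  map_smul' _ _ := rfl

theorem continuous_ev (x : X) : Continuous (fun g : Cp X => (g : X → ℝ) x) :=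
  (continuous_apply x).comp continuous_subtype_val

theorem top_eq :
    (inferInstance : TopologicalSpace (Cp X)) =
      ⨅ x : X, TopologicalSpace.induced (ev x) inferInstance := by
  change TopologicalSpace.induced Subtype.val Pi.topologicalSpace = _
  rw [Pi.topologicalSpace, induced_iInf]
  simp only [induced_compose]
  rfl

/-- every continuous linear functional on `C_p(X)` is a finite combination of evaluations -/
theorem exists_comb (φ : Cp X →ₗ[ℝ] ℝ) (hφ : Continuous φ) [Nonempty X] :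
    ∃ (n : ℕ) (x : ℕ → X) (c : ℕ → ℝ), ∀ g : Cp X,
      φ g = ∑ i ∈ Finset.range n, c i * (g : X → ℝ) (x i) := by
  have h : φ ∈ Submodule.span ℝ (Set.range (ev (X := X))) := by
    rw [LinearMap.mem_span_iff_continuous, ← top_eq]
    exact hφ
  rw [Submodule.mem_span_set'] at h
  obtain ⟨n, c, e, he⟩ := h
  choose x hx using fun i => (e i).2
  refine ⟨n, fun i => if h : i < n then x ⟨i, h⟩ else Classical.arbitrary X,
    fun i => if h : i < n then c ⟨i, h⟩ else 0, fun g => ?_⟩
  rw [← he, ← Fin.sum_univ_eq_sum_range (fun i => (if h : i < n then c ⟨i, h⟩ else 0) *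
    (g : X → ℝ) (if h : i < n then x ⟨i, h⟩ else Classical.arbitrary X)) n]
  simp only [LinearMap.coe_sum, Finset.sum_apply, LinearMap.smul_apply, smul_eq_mul,
    Fin.is_lt, dite_true, Fin.eta]
  refine Finset.sum_congr rfl fun i _ => ?_
  rw [← hx i]
  rfl

/-- the dual map restricted to `Y` -/
def dualMap (T : Cp X → Cp Y) (y : Y) : Cp X → ℝ := fun g => (T g : Y → ℝ) y

theorem dualMap_continuous (T : Cp X → Cp Y) : Continuous (dualMap T) :=
  continuous_pi fun g => Cp.cont (T g)

theorem dualMap_isEmbedding [T35Space Y] (T : Cp X → Cp Y) (hT : Function.Surjective T) :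
    IsEmbedding (dualMap T) := by
  refine IsInducing.isEmbedding ?_
  rw [isInducing_iff_nhds]
  intro y
  refine le_antisymm (dualMap_continuous T).continuousAt.le_comap ?_
  intro U hU
  obtain ⟨V, hVU, hVo, hyV⟩ := mem_nhds_iff.1 hU
  obtain ⟨f, hf, hf0, hf1⟩ :=
    CompletelyRegularSpace.completely_regular_isOpen y V hVo hyV
  obtain ⟨g, hg⟩ := hT ⟨fun z => (f z : ℝ), continuous_subtype_val.comp hf⟩
  refine ⟨{ψ | ψ g < 1}, ?_, ?_⟩
  · refine (isOpen_lt (continuous_apply g) continuous_const).mem_nhds ?_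
    change (T g : Y → ℝ) y < 1
    rw [hg]
    simp [hf0]
  · intro z hz
    by_contra hzU
    have hzV : z ∈ Vᶜ := fun h => hzU (hVU h)
    have h1 : (T g : Y → ℝ) z < 1 := hz
    rw [hg] at h1
    have h2 : f z = 1 := hf1 hzV
    simp [h2] at h1

theorem isClosed_range_dualMap [LindelofSpace Y] (T : Cp X → Cp Y)
    (hT : Function.Surjective T) : IsClosed (range (dualMap T)) := by
  refine isClosed_of_closure_subset fun φ hφ => ?_
  by_contra hn
  have hne : ∀ y : Y, ∃ g : Cp X, dualMap T y g ≠ φ g := by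
    intro y
    by_contra h
    push Not at h
    exact hn ⟨y, funext h⟩
  rcases isEmpty_or_nonempty Y with hY | hY
  · simp [range_eq_empty] at hφ
  choose h hh using hne
  obtain ⟨t, htc, ht⟩ := isLindelof_univ.elim_countable_subcover
    (fun y => {z : Y | dualMap T z (h y) ≠ φ (h y)})
    (fun y => isOpen_ne_fun (Cp.cont (T (h y))) continuous_const)
    (fun y _ => mem_iUnion.2 ⟨y, hh y⟩)
  have htne : t.Nonempty := by
    obtain ⟨y⟩ := hY
    have := ht (mem_univ y)
    simp only [mem_iUnion] at this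
    obtain ⟨i, hi, -⟩ := this
    exact ⟨i, hi⟩
  obtain ⟨u, hu⟩ := htc.exists_eq_range htne
  let a : ℕ → (Cp X → ℝ) → ℝ := fun n ψ => (1 / 2) ^ n * min 1 |ψ (h (u n)) - φ (h (u n))|
  have ha0 : ∀ n ψ, 0 ≤ a n ψ := fun n ψ => by positivity
  have ha1 : ∀ n ψ, ‖a n ψ‖ ≤ (1 / 2) ^ n := fun n ψ => by
    rw [Real.norm_of_nonneg (ha0 n ψ)]
    exact mul_le_of_le_one_right (by positivity) (min_le_left _ _)
  have hac : ∀ n, Continuous (a n) := fun n => by
    simp only [a]
    fun_prop
  let G : (Cp X → ℝ) → ℝ := fun ψ => ∑' n, a n ψ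
  have hG : Continuous G := continuous_tsum hac summable_geometric_two ha1
  have hGφ : G φ = 0 := by simp [G, a]
  have hGpos : ∀ z : Y, 0 < G (dualMap T z) := by
    intro z
    have := ht (mem_univ z)
    simp only [mem_iUnion] at this
    obtain ⟨i, hi, hz⟩ := this
    rw [hu] at hi
    obtain ⟨n, rfl⟩ := hi
    refine (Summable.of_norm_bounded summable_geometric_two (fun n => ha1 n _)).tsum_pos
      (fun n => ha0 n _) n ?_
    have : 0 < |dualMap T z (h (u n)) - φ (h (u n))| := abs_pos.2 (sub_ne_zero.2 hz)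
    simp only [a]
    positivity
  obtain ⟨g, hg⟩ := hT ⟨fun z => (G (dualMap T z))⁻¹,
    (hG.comp (dualMap_continuous T)).inv₀ fun z => (hGpos z).ne'⟩
  have hcl : IsClosed {ψ : Cp X → ℝ | ψ g * G ψ = 1} :=
    isClosed_eq ((continuous_apply g).mul hG) continuous_const
  have hsub : range (dualMap T) ⊆ {ψ : Cp X → ℝ | ψ g * G ψ = 1} := by
    rintro _ ⟨z, rfl⟩
    change (T g : Y → ℝ) z * G (dualMap T z) = 1
    rw [hg]
    exact inv_mul_cancel₀ (hGpos z).ne'
  have := hcl.closure_subset_iff.2 hsub hφ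
  simp [hGφ] at this

theorem analytic_of_linear_surjection [T35Space Y] [Nonempty Y] (hX : IsAnalyticSpace X)
    (T : Cp X →L[ℝ] Cp Y) (hT : Function.Surjective T) : IsAnalyticSpace Y := by
  obtain ⟨f, hf, hfs⟩ := hX
  have : Nonempty X := ⟨f 0⟩
  let Φ : ℕ × (ℕ → (ℕ → ℕ) × ℝ) → (Cp X → ℝ) := fun p g =>
    ∑ i ∈ Finset.range p.1, (p.2 i).2 * (g : X → ℝ) (f (p.2 i).1)
  have hΦ : Continuous Φ := by
    refine continuous_pi fun g => ?_
    rw [continuous_prod_of_discrete_left]
    intro n
    have := Cp.cont g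
    simp only [Φ]
    fun_prop
  have hrange : ∀ y : Y, ∃ p, Φ p = dualMap T y := by
    intro y
    obtain ⟨n, x, c, h⟩ := exists_comb ((ev y).comp (T : Cp X →ₗ[ℝ] Cp Y))
      ((continuous_ev y).comp T.continuous)
    choose s hs using fun i => hfs (x i)
    refine ⟨(n, fun i => (s i, c i)), funext fun g => ?_⟩
    simp only [Φ, hs]
    exact (h g).symm
  have hemb := dualMap_isEmbedding T hT
  let C : Set (ℕ × (ℕ → (ℕ → ℕ) × ℝ)) := Φ ⁻¹' range (dualMap T)
  have hC : ∀ p : C, ∃ y, dualMap T y = Φ p := fun p => p.2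
  choose k hk using hC
  have hkc : Continuous k := by
    rw [hemb.continuous_iff]
    have : dualMap T ∘ k = Φ ∘ Subtype.val := funext hk
    rw [this]
    exact hΦ.comp continuous_subtype_val
  have hks : Function.Surjective k := by
    intro y
    obtain ⟨p, hp⟩ := hrange y
    refine ⟨⟨p, y, hp.symm⟩, hemb.injective ?_⟩
    rw [hk]
    exact hp
  have : LindelofSpace Y := LindelofSpace.of_continuous_surjective hkc hks
  have hCc : IsClosed C := (isClosed_range_dualMap T hT).preimage hΦ
  have : PolishSpace C := hCc.polishSpace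
  have : Nonempty C := hks.nonempty
  obtain ⟨e, he, hes⟩ := PolishSpace.exists_nat_nat_continuous_surjective C
  exact ⟨k ∘ e, hkc.comp he, hks.comp hes⟩

end Pool.Agent.MP_1f8704_gt
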